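import Mathlib
import Pool.Agent.H592R3.Defs
import Pool.Agent.W964.Pram.Machine
import Pool.Agent.W964.Pram.RandMachine
import Pool.Agent.W964.Pram.Ip.Verifier
import Pool.Agent.W964.Pram.Ip.SatVer
import Pool.Agent.W964.Pram.Q.Quantum
import Pool.Agent.W964.Pram.Q.QSat
import Pool.Agent.W964.Pram.Q.QFinal

/-!
NP and BQP with parallel random access machines as subroutines: quantum algorithms with unlimited
memory and arbitrary unitary maps, which call in superposition `2 ^ (n ^ c)` programs of ideal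
parallel random access machines (priority concurrent writing, arbitrary instruction set, unbounded
words and memory, `2 ^ ((1 - ε) n)` processors, `T = o (n / log n)` steps) on the given CNF formula
with `n` variables, and make `n ^ (c T)` calls, do not tell unsatisfiable formulas from formulas
with exactly one satisfying assignment, not even on average; a satisfying assignment is checked in
one step.
-/

set_option autoImplicit false

open SmallDepth Finset Filter Pool.Agent.W964.Pram

namespace Pool.Agent.Results.MP_0f8dca_lc.ParallelCalls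

/-- 1. For all `n` and `M` some verifier with `M` processors, which receives `n` bits from a prover
and gives its machines one step (or more), accepts some prover with probability 1 if the CNF
formula `x` with `n` variables and `M` clauses is satisfiable, and accepts no prover (with
probability greater than 0) otherwise.

2. For `ε > 0` and `K` there is `C > 0` such that for `n ≥ 2` variables, `T ≥ 1` steps,
`C T log (n + g) ≤ w ≤ n` and `M ≥ n 2 ^ w` clauses there are two probability distributions on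
formulas of width at most `w`, `ν₀` on unsatisfiable formulas and `ν₁` on formulas with exactly one
satisfying assignment, such that the probabilities that a quantum algorithm accepts a random
formula from `ν₀` and from `ν₁` differ by at most `q 2 ^ (-w / C)` if it calls `2 ^ g` programs of
parallel machines with at most `2 ^ ((1 - ε) n)` processors and lists of length at most
`2 ^ (K n)` for `T` steps and makes `q` calls.

3. For `0 < δ < 2`, `K`, `c` and `T n = o (n / log n)` there are widths `w n = O (T n log n)` and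
numbers of clauses `M n = n 2 ^ w n` such that for all large `n` every quantum algorithm that calls
`2 ^ (n ^ c)` programs with `(2 - δ) ^ n` times a polynomial in `M n` processors for `T n` steps and
makes at most `n ^ (c T n)` calls is wrong with probability greater than `1 / 3` about the
satisfiability of some formula with `n` variables and `M n` clauses of width at most `w n`, which is
unsatisfiable or has exactly one satisfying assignment. -/
theorem result :
    (∀ n M : ℕ, ∃ V : Verifier (Fin M × Fin n × Bool) M, V.Lists n ∧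
      ∀ T, 1 ≤ T → ∀ x, ((∃ α, Models x α) → ∃ π, V.acc T n x π = 1) ∧
        ((¬ ∃ α, Models x α) → ∀ π, V.acc T n x π = 0)) ∧
    (∀ (ε : ℝ) (K : ℕ), 0 < ε → ∃ C : ℝ, 0 < C ∧
      ∀ n T g w M : ℕ, 2 ≤ n → 1 ≤ T → C * (T * Real.log (n + g)) ≤ w → w ≤ n →
      n * 2 ^ w ≤ M →
      ∃ ν₀ ν₁ : ((Fin M × Fin n × Bool) → Bool) → ℝ,
        ((∀ x, 0 ≤ ν₀ x) ∧ ∑ x, ν₀ x = 1) ∧ ((∀ x, 0 ≤ ν₁ x) ∧ ∑ x, ν₁ x = 1) ∧
        (∀ x, ν₀ x ≠ 0 → WidthLe x w ∧ ¬ ∃ α, Models x α) ∧
        (∀ x, ν₁ x ≠ 0 → WidthLe x w ∧ ∃! α, Models x α) ∧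
        ∀ (P : ℕ) (I : Type) [Fintype I] (mach : I → Machine (Fin M × Fin n × Bool) P)
          (A : QAlg mach), (P : ℝ) ≤ 2 ^ ((1 - ε) * n) → (∀ i, (mach i).Lists (2 ^ (K * n))) →
          Fintype.card I ≤ 2 ^ g → ∀ q : ℕ,
          |(∑ x, ν₀ x * A.acc T q x) - ∑ x, ν₁ x * A.acc T q x| ≤ q * 2 ^ (-((w : ℝ) / C))) ∧
    (∀ (δ : ℝ) (K c : ℕ), 0 < δ → δ < 2 → ∀ T : ℕ → ℕ, (∀ n, 1 ≤ T n) →
      (fun n : ℕ => (T n : ℝ) * Real.log n) =o[atTop] (fun n : ℕ => (n : ℝ)) →
      ∃ w : ℕ → ℕ, (∃ C : ℝ, ∀ n, 2 ≤ n → (w n : ℝ) ≤ C * (T n * Real.log n)) ∧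
        ∀ e : ℕ, ∀ᶠ n : ℕ in atTop,
          ∀ (P : ℕ) (I : Type) [Fintype I]
            (mach : I → Machine (Fin (n * 2 ^ w n) × Fin n × Bool) P) (A : QAlg mach) (q : ℕ),
            (P : ℝ) ≤ (2 - δ) ^ n * (e * (((n * 2 ^ w n : ℕ) : ℝ)) ^ e) →
            (∀ i, (mach i).Lists (2 ^ (K * n))) → Fintype.card I ≤ 2 ^ (n ^ c) →
            q ≤ n ^ (c * T n) →
            ∃ x, WidthLe x (w n) ∧ (((¬ ∃ α, Models x α) ∧ 1 / 3 < A.acc (T n) q x) ∨
              ((∃! α, Models x α) ∧ A.acc (T n) q x < 2 / 3))) := by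
  refine ⟨sat_proofs, fun ε K hε => ?_, fun δ K c hδ hδ2 T hT hTo => ?_⟩
  · obtain ⟨C, hC, H⟩ := q_sat ε hε K
    refine ⟨C, hC, ?_⟩
    intro n T g w M hn hT hw hwn hM
    obtain ⟨ν₀, ν₁, h0, h1, hs0, hs1, hA, _⟩ := H n T g w M hn hT hw hwn hM
    exact ⟨ν₀, ν₁, h0, h1, hs0, hs1, hA⟩
  · obtain ⟨w, hw, H⟩ := q_q1 δ hδ hδ2 K c T hT hTo
    exact ⟨w, hw, fun e => (H e).mono fun n hn => hn.1⟩

end Pool.Agent.Results.MP_0f8dca_lc.ParallelCalls
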