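import Pool.Agent.W908.L.L4

set_option autoImplicit false

/-!
# The hierarchy is easy on average for classical algorithms, but `NP` is not in `BQP`
-/

namespace Pool.Agent.Results.MP_0f8dca_lc.QuantumHeuristica

open Pool.Agent.H620R2.Gauge Pool.Agent.H591R3.PHG Pool.Agent.W908 Pool.Agent.W908.RS
  Pool.Agent.W908.LS

/-- There is an oracle `O` relative to which
(1) every language `L` in the polynomial hierarchy is easy on average for classical algorithms,
under every distribution that can be sampled in polynomial time relative to `O`, with error at
most `1 / (n + 1) ^ c`, for every `c` and every `n`;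
(2) some language `L` with `L` and its complement in `UP` is exponentially hard for quantum
computation: for every uniform family `C` of quantum circuits with gates for `O` there is `d` such
that for every `n ≥ d` and every string `h` of length at most `2 ^ (n / d)` the circuit `C ⟨x, h⟩`
does not decide with error `1 / 3` whether `x` is in `L`, for some `x` of length `n`. -/
theorem result : ∃ O : Oracle,
    (∀ (k : ℕ) (L : Set (List Bool)), IsSig O k L → ∀ F : List Bool → List Bool, IsFP O F →
      ∀ (q : Polynomial ℕ) (c : ℕ), EasyOnSamples O L F q c) ∧
    ∃ L : Set (List Bool), IsUP O L ∧ IsUP O Lᶜ ∧ QuantumExpHard O L :=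
  Pool.Agent.W908.LS.mainL

end Pool.Agent.Results.MP_0f8dca_lc.QuantumHeuristica
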