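import Pool.Agent.W908.Q.Q8

set_option autoImplicit false

/-!
# `NP` is hard on average for quantum computers, although there are no one-way functions
-/

namespace Pool.Agent.Results.MP_0f8dca_lc.QuantumPessiland

open Pool.Agent.H620R2.Gauge Pool.Agent.W908 Pool.Agent.W908.PS Pool.Agent.W908.QS
open Pool.Agent.H591R3.PHG (IsSig IsSigPoly)

/-- There is an oracle `O` relative to which the polynomial hierarchy is strict at every level,
even against polynomial advice, and some language in `UP ∩ coUP` is hard on average for
quantum polynomial time on all sufficiently large lengths, but there is no one-way function, even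
among the functions computed by quantum circuits: every function computable in bounded-error
quantum polynomial time relative to `O` can be inverted in classical probabilistic polynomial time
relative to `O` with failure probability at most `1 / (n + 1) ^ c` on all lengths `n`, for
every `c`. -/
theorem result : ∃ O : Oracle,
    (∀ k : ℕ, ∃ L : Set (List Bool), IsSig O (k + 1) L ∧ ¬ IsSigPoly O k L) ∧
    (∃ L : Set (List Bool), IsUP O L ∧ IsUP O Lᶜ ∧ QuantumHardOnAverage O L) ∧
    ∀ F : List Bool → List Bool, IsFBQP O F → ∀ c : ℕ, Invertible O F c :=
  QS.main

end Pool.Agent.Results.MP_0f8dca_lc.QuantumPessiland
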