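import Mathlib
import Pool.Agent.W977.CQ.Defs
import Pool.Agent.W902.Q.Stm
import Pool.Agent.W902.Q.Main

/-!
# Nondeterminism (even unambiguous) against quantum linear time and linear space

The input consists of `n` words, elements of `ZMod p`. `OnePass n A w` is the type of one-pass
programs: the words are read once each, in an order that is fixed for the program, and the program
has `w` memory states. For a family `P` of `m` such programs, the language of the inputs accepted
by some `P j` is decided by a nondeterministic machine that guesses `j` and makes one pass over the
input with `w` memory states; on the inputs that are accepted by at most one of the programs this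
machine is unambiguous.

`Machine n A D T` is the type of quantum machines with a memory with `D` basis states (`log D`
qubits) and `T` steps; in every step each basis state of the memory reads one word, at a position
that depends on the basis state (so superpositions read superpositions of words), and an arbitrary
quantum operation, which depends on the words read, is applied to the memory.

`Tells Q P α δ`: the machine `Q` accepts the inputs accepted by exactly one of the programs with
probability at least `α` and the inputs accepted by none of them with probability at most `α - δ`.

(1) For all constants `k` (time `k n`) and `δ` (advantage) the union of sufficiently many one-pass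
programs (a constant number) over sufficiently long words (elements of `ZMod p`, with
`log p ≥ c₀ (s + 1)`) is not decided with `k n` steps and `s n` qubits: quantum linear time needs
linear space. (2) There is a single sequence for all constants, in which the number of programs,
the number of memory states and the number of possible words grow arbitrarily slowly.
-/

set_option autoImplicit false

open Filter

namespace Pool.Agent.Results.MP_0f8dca_lc.UnambiguousOnePass

open Pool.Agent.W902.Q Pool.Agent.W977.CQ

theorem result :
    (∀ (k : ℕ) (δ : ℝ), 0 < δ → δ ≤ 1 → ∃ m₀ c₀ : ℕ, ∀ m ≥ m₀, ∀ s p : ℕ, p.Prime →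
      2 ^ (c₀ * (s + 1)) ≤ p → ∃ N, ∀ n ≥ N, ∃ P : Fin m → OnePass n (ZMod p) (p * p),
        ∀ (D T : ℕ) (Q : Machine n (ZMod p) D T), Q.Valid → T ≤ k * n → D ≤ 2 ^ (s * n) →
          ∀ α : ℝ, ¬ Tells Q P α δ) ∧
    (∀ β : ℕ → ℕ, Tendsto β atTop atTop →
      ∃ (p m : ℕ → ℕ) (P : ∀ n, Fin (m n) → OnePass n (ZMod (p n)) (p n * p n)),
        (∀ n, (p n).Prime) ∧ (∀ᶠ n in atTop, m n * (p n * p n) ≤ β n) ∧
        ∀ K : ℕ, ∀ᶠ n in atTop, ∀ (D T : ℕ) (Q : Machine n (ZMod (p n)) D T), Q.Valid →
          T ≤ K * n → D ≤ 2 ^ (K * n) → ∀ α : ℝ, ¬ Tells Q (P n) α (1 / ((K : ℝ) + 1))) :=
  ⟨fixedQ, sequenceQ⟩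

end Pool.Agent.Results.MP_0f8dca_lc.UnambiguousOnePass
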