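import Pool.Agent.W977.CQ.Pmem
import Pool.Agent.W977.CQ.Asym

/-!
# A decision problem in P needs superlinear time on quantum machines with little memory, even if
# they read their input in superposition

`PowerSum` asks, given numbers `p`, `r`, `k` and a list `l` of `n` numbers, whether `p` divides
`∑_{j < k} (∑_i i ^ j l_i) ^ r`. It is decidable in polynomial time. A quantum machine
(`Machine n (ZMod p) D T`) has a memory with `D ≤ 2 ^ S` basis states (`S` qubits) and makes `T`
steps. In every step each basis state of the memory reads one word of the input, at a position that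
depends on the basis state, so that a superposition reads a superposition of words, and an arbitrary
quantum operation (depending on the words read) is applied to the memory. At the end the memory is
measured; the machine may discard the outcome, except with probability `2 ^ (-S)`, and otherwise
it has to be right with probability `1/2 + δ`.

The result: for all `n ≤ p` with `log p ≤ n` and all `S` there are `r` and `k` such that machines
with `S` qubits need `T ≥ c n log (n log p / (n + S))` steps for the inputs with `n` words.
-/

namespace Pool.Agent.Results.MP_0f8dca_lc.ZCoherentTimeSpace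

open Pool.Agent.W977.CQ Pool.Agent.NPC

theorem result : InPP PowerSum ∧ ∀ δ : ℝ, 0 < δ → ∃ c : ℝ, 0 < c ∧ ∀ n p S : ℕ, p.Prime → 1 ≤ n →
    n ≤ p → Real.log p ≤ n → ∃ r k : ℕ, ∀ (D T : ℕ) (Q : Machine n (ZMod p) D T), Q.Valid →
      D ≤ 2 ^ S →
      Q.Computes S δ (fun x => PowerSum (p, r, k, List.ofFn fun i => (x i).val)) →
      c * n * Real.log (n * Real.log p / (n + S)) ≤ T := by
  refine ⟨powerSum_inPP, fun δ hδ => ?_⟩
  obtain ⟨c, hc, h⟩ := lower_bound hδ
  refine ⟨c, hc, fun n p S hp hn hnp hlog => ?_⟩
  have : Fact p.Prime := ⟨hp⟩
  obtain ⟨r, k, hr, hk, -, h1⟩ := h n p S hn hnp hlog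
  refine ⟨r, k, fun D T Q hQ hD hcomp => h1 D T Q hQ hD ?_⟩
  intro x
  have h2 := hcomp x
  simp only [powerSum_iff hr hk x] at h2
  exact h2

end Pool.Agent.Results.MP_0f8dca_lc.ZCoherentTimeSpace
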